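import Mathlib

/-!
MP_2227f4_al, Q1: a central division algebra of degree `n` with a separable subfield `L ≠ F` which
is not of degree `n`, or whose Galois closure over `F` does not have group `S_n`, is split by a
proper subgroup of `S_n`.

The proof contains: subfields of degree `n` split `A`; the centraliser theorem for subfields (from
the density theorem); every separable subfield lies in a separable subfield of degree `n` (from the
theorem of Jacobson and Noether); the Galois group of the closure of a field with a proper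
intermediate field is a proper subgroup of `S_n`.
-/

set_option autoImplicit false

namespace Pool.Agent.Results.MP_2227f4_al.PrimitiveSubfields

open scoped TensorProduct

universe u

/-- The finite group `G` splits the `F`-algebra `A` (of degree `n`): there is a finite Galois
extension `E/F` with Galois group isomorphic to `G` and `E ⊗ A ≅ M_n(E)` as `E`-algebras. -/
def GroupSplits (F A : Type u) [Field F] [Ring A] [Algebra F A] (n : ℕ)
    (G : Type) [Group G] : Prop :=
  ∃ (E : Type u) (_ : Field E) (_ : Algebra F E), FiniteDimensional F E ∧ IsGalois F E ∧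
    Nonempty (G ≃* (E ≃ₐ[F] E)) ∧ Nonempty ((E ⊗[F] A) ≃ₐ[E] Matrix (Fin n) (Fin n) E)

section Indep

variable {F A : Type u} [Field F] [DivisionRing A] [Algebra F A] [Algebra.IsCentral F A]

theorem indep {ι : Type u} (b : ι → A) (hb : LinearIndependent F b) (s : Finset ι) :
    ∀ a : ι → A, (∀ x : A, ∑ i ∈ s, a i * x * b i = 0) → ∀ i ∈ s, a i = 0 := by
  classical
  induction s using Finset.strongInduction with
  | H s ih =>
    intro a ha
    by_contra hcon
    push Not at hcon
    obtain ⟨i0, hi0, hne⟩ := hcon
    set a' : ι → A := fun i => (a i0)⁻¹ * a i with ha'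
    have ha'0 : a' i0 = 1 := by simp [ha', inv_mul_cancel₀ hne]
    have h1 : ∀ x : A, ∑ i ∈ s, a' i * x * b i = 0 := by
      intro x
      have := congrArg (fun z => (a i0)⁻¹ * z) (ha x)
      simpa [ha', Finset.mul_sum, mul_assoc] using this
    have h2 : ∀ y : A, ∀ i ∈ s, a' i * y - y * a' i = 0 := by
      intro y
      have h3 : ∀ x : A, ∑ i ∈ s.erase i0, (a' i * y - y * a' i) * x * b i = 0 := by
        intro x
        have h4 : ∑ i ∈ s, (a' i * y - y * a' i) * x * b i = 0 := by
          have e1 := h1 (y * x)
          have e2 := congrArg (fun z => y * z) (h1 x)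
          simp only [Finset.mul_sum, mul_zero] at e2
          have : ∑ i ∈ s, (a' i * y - y * a' i) * x * b i =
              ∑ i ∈ s, a' i * (y * x) * b i - ∑ i ∈ s, y * (a' i * x * b i) := by
            rw [← Finset.sum_sub_distrib]
            refine Finset.sum_congr rfl fun i _ => ?_
            noncomm_ring
          rw [this, e1, e2, sub_zero]
        rw [← Finset.add_sum_erase s _ hi0] at h4
        simpa [ha'0] using h4
      have h5 := ih (s.erase i0) (Finset.erase_ssubset hi0) (fun i => a' i * y - y * a' i) h3
      intro i hi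
      by_cases hii : i = i0
      · subst hii; simp [ha'0]
      · exact h5 i (Finset.mem_erase.2 ⟨hii, hi⟩)
    have h6 : ∀ i ∈ s, ∃ f : F, a' i = algebraMap F A f := by
      intro i hi
      have h7 : a' i ∈ Subalgebra.center F A := by
        rw [Subalgebra.mem_center_iff]
        intro y
        have := h2 y i hi
        exact (sub_eq_zero.1 this).symm
      rw [Algebra.IsCentral.center_eq_bot, Algebra.mem_bot] at h7
      obtain ⟨f, hf⟩ := h7
      exact ⟨f, hf.symm⟩
    choose! f hf using h6
    have h8 : ∑ i ∈ s, f i • b i = 0 := by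
      rw [← h1 1]
      refine Finset.sum_congr rfl fun i hi => ?_
      rw [hf i hi, mul_one, Algebra.smul_def]
    have h9 := linearIndependent_iff'.1 hb s f h8 i0 hi0
    have h10 := hf i0 hi0
    rw [h9, map_zero, ha'0] at h10
    exact one_ne_zero h10

end Indep

section Split

variable {F A K : Type u} [Field F] [DivisionRing A] [Algebra F A] [Field K] [Algebra F K]

/-- `A` as a vector space over its subfield `K`, which acts on the right. -/
def RM (_φ : K →ₐ[F] A) : Type u := A

variable (φ : K →ₐ[F] A)

instance : AddCommGroup (RM φ) := inferInstanceAs (AddCommGroup A)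

instance : Module F (RM φ) := inferInstanceAs (Module F A)

/-- the right action of `K` as a ring homomorphism -/
def toOp : K →+* Aᵐᵒᵖ where
  toFun k := MulOpposite.op (φ k)
  map_one' := by simp
  map_mul' a b := by rw [mul_comm a b, map_mul, MulOpposite.op_mul]
  map_zero' := by simp
  map_add' a b := by simp

instance : Module K (RM φ) := Module.compHom A (toOp φ)

theorem smul_eq (k : K) (x : RM φ) : k • x = (show A from x) * φ k := rfl

instance : IsScalarTower F K (RM φ) := ⟨fun f k x => by
  change (show A from x) * φ (f • k) = f • ((show A from x) * φ k)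
  rw [map_smul, mul_smul_comm]⟩

instance : SMulCommClass K F (RM φ) := ⟨fun k f x => by
  change (f • (show A from x)) * φ k = f • ((show A from x) * φ k)
  rw [smul_mul_assoc]⟩

/-- left multiplication -/
def leftMul : A →ₐ[F] Module.End K (RM φ) where
  toFun a :=
    { toFun := fun x => a * (show A from x)
      map_add' := fun x y => mul_add a (show A from x) (show A from y)
      map_smul' := fun k x => (mul_assoc a (show A from x) (φ k)).symm }
  map_one' := by ext x; exact one_mul (show A from x)
  map_mul' a b := by ext x; exact mul_assoc a b (show A from x)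
  map_zero' := by ext x; exact zero_mul (show A from x)
  map_add' a b := by ext x; exact add_mul a b (show A from x)
  commutes' f := by
    ext x
    change algebraMap F A f * (show A from x) = f • (show A from x)
    rw [Algebra.smul_def]

/-- `K ⊗ A` acts on `A`: `A` on the left and `K` on the right. -/
def act : K ⊗[F] A →ₐ[K] Module.End K (RM φ) :=
  Algebra.TensorProduct.lift (Algebra.ofId K _) (leftMul φ) fun k _ => Algebra.commutes k _

theorem act_tmul (k : K) (a : A) (x : RM φ) :
    act φ (k ⊗ₜ a) x = a * (show A from x) * φ k := rfl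

theorem act_injective [Algebra.IsCentral F A] : Function.Injective (act φ) := by
  rw [injective_iff_map_eq_zero]
  intro z hz
  obtain ⟨c, hc⟩ := TensorProduct.eq_repr_basis_left (Module.Basis.ofVectorSpace F K) z
  have hind : LinearIndependent F (fun i => φ (Module.Basis.ofVectorSpace F K i)) :=
    (Module.Basis.ofVectorSpace F K).linearIndependent.map' φ.toLinearMap
      (LinearMap.ker_eq_bot.2 φ.injective)
  have h1 := indep _ hind c.support c fun x => by
    have h2 : act φ z (show RM φ from x) = 0 := by rw [hz]; rfl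
    rw [← hc, Finsupp.sum, map_sum, LinearMap.sum_apply] at h2
    exact h2
  have h3 : c = 0 := by
    ext i
    by_cases hi : i ∈ c.support
    · simpa using h1 i hi
    · simpa using hi
  rw [← hc, h3, Finsupp.sum_zero_index]

include φ in
theorem split_self [Algebra.IsCentral F A] (n : ℕ) (hn : 0 < n)
    (hA : Module.finrank F A = n ^ 2) (hK : Module.finrank F K = n) :
    Nonempty ((K ⊗[F] A) ≃ₐ[K] Matrix (Fin n) (Fin n) K) := by
  have : FiniteDimensional F A := FiniteDimensional.of_finrank_pos (by rw [hA]; positivity)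
  have : FiniteDimensional F K := FiniteDimensional.of_finrank_pos (by rw [hK]; exact hn)
  have : Module.Finite F (RM φ) := inferInstanceAs (Module.Finite F A)
  have : Module.Finite K (RM φ) := Module.Finite.of_restrictScalars_finite F K (RM φ)
  have h1 : Module.finrank K (RM φ) = n := by
    have h2 : Module.finrank F K * Module.finrank K (RM φ) = Module.finrank F (RM φ) :=
      Module.finrank_mul_finrank F K (RM φ)
    have h3 : Module.finrank F (RM φ) = n ^ 2 := hA
    rw [hK, h3, sq] at h2
    exact Nat.eq_of_mul_eq_mul_left hn h2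
  have h4 : Module.finrank K (K ⊗[F] A) = Module.finrank K (Module.End K (RM φ)) := by
    rw [Module.finrank_baseChange, Module.finrank_linearMap, h1, hA, sq]
  have h5 : Function.Bijective (act φ) := by
    refine ⟨act_injective φ, ?_⟩
    exact (LinearMap.injective_iff_surjective_of_finrank_eq_finrank
      (f := (act φ).toLinearMap) h4).1 (act_injective φ)
  exact ⟨(AlgEquiv.ofBijective (act φ) h5).trans
    (algEquivMatrix (Module.finBasisOfFinrankEq K (RM φ) h1))⟩

theorem split_up {E : Type u} [Field E] [Algebra F E] [Algebra K E] [IsScalarTower F K E] (n : ℕ)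
    (h : Nonempty ((K ⊗[F] A) ≃ₐ[K] Matrix (Fin n) (Fin n) K)) :
    Nonempty ((E ⊗[F] A) ≃ₐ[E] Matrix (Fin n) (Fin n) E) := by
  obtain ⟨e⟩ := h
  let e1 : E ⊗[F] A ≃ₐ[E] E ⊗[K] (K ⊗[F] A) :=
    AlgEquiv.ofLinearEquiv
      (TensorProduct.AlgebraTensorModule.cancelBaseChange F K E E A).symm
      (by simp [Algebra.TensorProduct.one_def]) <|
        LinearMap.map_mul_of_map_mul_tmul (fun _ _ _ _ => by simp)
  let e2 : E ⊗[K] (K ⊗[F] A) ≃ₐ[E] E ⊗[K] Matrix (Fin n) (Fin n) K :=
    Algebra.TensorProduct.congr AlgEquiv.refl e
  let e3 : E ⊗[K] Matrix (Fin n) (Fin n) K ≃ₐ[E] Matrix (Fin n) (Fin n) E :=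
    AlgEquiv.ofRingEquiv (f := (matrixEquivTensor (Fin n) K E).symm.toRingEquiv) fun r => by
      change (matrixEquivTensor (Fin n) K E).symm (r ⊗ₜ 1) = _
      rw [matrixEquivTensor_apply_symm, Matrix.map_one _ (map_zero _) (map_one _),
        Algebra.algebraMap_eq_smul_one]
  exact ⟨(e1.trans e2).trans e3⟩

end Split

section Centralizer

variable {F A K : Type u} [Field F] [DivisionRing A] [Algebra F A] [Field K] [Algebra F K]
  (φ : K →ₐ[F] A)

/-- the identity map of `A` -/
def un : RM φ ≃ₗ[F] A := LinearEquiv.refl F A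

theorem un_act (k : K) (a : A) (x : RM φ) : un φ (act φ (k ⊗ₜ a) x) = a * un φ x * φ k := rfl

noncomputable instance : Module (K ⊗[F] A) (RM φ) := Module.compHom (RM φ) (act φ).toRingHom

theorem tsmul_eq (z : K ⊗[F] A) (x : RM φ) : z • x = act φ z x := rfl

theorem un_tsmul (k : K) (a : A) (x : RM φ) :
    un φ ((k ⊗ₜ[F] a) • x) = a * un φ x * φ k := rfl

instance : SMulCommClass (K ⊗[F] A) F (RM φ) := ⟨fun z f x => by
  rw [tsmul_eq, tsmul_eq, LinearMap.map_smul_of_tower]⟩

instance : IsSimpleModule (K ⊗[F] A) (RM φ) := by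
  rw [isSimpleModule_iff_toSpanSingleton_surjective]
  refine ⟨inferInstanceAs (Nontrivial A), fun x hx y => ?_⟩
  have hx' : un φ x ≠ 0 := fun h => hx ((un φ).map_eq_zero_iff.1 h)
  refine ⟨1 ⊗ₜ (un φ y * (un φ x)⁻¹), ?_⟩
  rw [LinearMap.toSpanSingleton_apply]
  apply (un φ).injective
  rw [un_tsmul, map_one, mul_one, inv_mul_cancel_right₀ hx']

/-- the endomorphisms of `A` as a `K ⊗ A`-module -/
abbrev EE : Type u := Module.End (K ⊗[F] A) (RM φ)

instance : IsScalarTower F (EE φ) (RM φ) := ⟨fun _ _ _ => rfl⟩

/-- the unit of `A` as a vector -/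
def one' : RM φ := (un φ).symm 1

theorem un_one' : un φ (one' φ) = 1 := rfl

theorem endo_eq (f : EE φ) (x : RM φ) : un φ (f x) = un φ x * un φ (f (one' φ)) := by
  have h1 : ((1 : K) ⊗ₜ[F] (un φ x)) • one' φ = x := by
    apply (un φ).injective
    rw [un_tsmul, map_one, mul_one, un_one', mul_one]
  conv_lhs => rw [← h1, map_smul, un_tsmul, map_one, mul_one]

/-- the endomorphisms are the right multiplications by the elements of the centraliser -/
noncomputable def toCent : EE φ →ₗ[F] Subalgebra.centralizer F (φ.range : Set A) where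
  toFun f := ⟨un φ (f (one' φ)), by
    rw [Subalgebra.mem_centralizer_iff]
    rintro _ ⟨k, rfl⟩
    have h1 : (k ⊗ₜ[F] (1 : A)) • one' φ = (un φ).symm (φ k) := by
      apply (un φ).injective
      rw [un_tsmul, un_one', one_mul, one_mul, LinearEquiv.apply_symm_apply]
    have h2 := endo_eq φ f ((un φ).symm (φ k))
    rw [LinearEquiv.apply_symm_apply, ← h1, map_smul, un_tsmul, one_mul] at h2
    exact h2.symm⟩
  map_add' f g := rfl
  map_smul' c f := rfl

theorem toCent_bijective : Function.Bijective (toCent φ) := by
  constructor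
  · intro f g h
    have h1 : un φ (f (one' φ)) = un φ (g (one' φ)) := congrArg Subtype.val h
    ext x
    apply (un φ).injective
    rw [endo_eq φ f x, endo_eq φ g x, h1]
  · rintro ⟨c, hc⟩
    have hc' := hc
    rw [Subalgebra.mem_centralizer_iff] at hc'
    have key : ∀ (z : K ⊗[F] A) (x : RM φ),
        (un φ).symm (un φ (z • x) * c) = z • (un φ).symm (un φ x * c) := by
      intro z x
      induction z using TensorProduct.induction_on with
      | zero => rw [zero_smul, zero_smul, map_zero, zero_mul, map_zero]
      | tmul k a =>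
        apply (un φ).injective
        rw [un_tsmul, un_tsmul, LinearEquiv.apply_symm_apply, LinearEquiv.apply_symm_apply,
          mul_assoc _ (φ k) c, hc' (φ k) ⟨k, rfl⟩]
        simp only [mul_assoc]
      | add a b ha hb => rw [add_smul, add_smul, map_add, add_mul, map_add, ha, hb]
    refine ⟨{ toFun := fun x => (un φ).symm (un φ x * c)
              map_add' := fun x y => by rw [map_add, add_mul, map_add]
              map_smul' := fun z x => key z x }, ?_⟩
    apply Subtype.ext
    change un φ ((un φ).symm (un φ (one' φ) * c)) = c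
    rw [LinearEquiv.apply_symm_apply, un_one', one_mul]

/-- The centraliser theorem for subfields. -/
theorem dim_centralizer [Algebra.IsCentral F A] [FiniteDimensional F A] :
    Module.finrank F K * Module.finrank F (Subalgebra.centralizer F (φ.range : Set A)) =
      Module.finrank F A := by
  classical
  have hK : FiniteDimensional F K := FiniteDimensional.of_injective φ.toLinearMap φ.injective
  have hM : Module.Finite F (RM φ) := inferInstanceAs (Module.Finite F A)
  let _ : DivisionRing (EE φ) := Module.End.instDivisionRing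
  have hE : Module.Finite (EE φ) (RM φ) := Module.Finite.of_restrictScalars_finite F (EE φ) (RM φ)
  have hEF : Module.finrank F (EE φ) =
      Module.finrank F (Subalgebra.centralizer F (φ.range : Set A)) :=
    LinearEquiv.finrank_eq (LinearEquiv.ofBijective (toCent φ) (toCent_bijective φ))
  let b := Module.finBasis (EE φ) (RM φ)
  let ev : (K ⊗[F] A) →ₗ[F] (Fin (Module.finrank (EE φ) (RM φ)) → RM φ) :=
    { toFun := fun z i => z • b i
      map_add' := fun z w => by ext i; exact add_smul z w (b i)
      map_smul' := fun f z => by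
        ext i
        change (f • z) • b i = f • (z • b i)
        have h0 : act φ (f • z) = f • act φ z := (act φ).toLinearMap.map_smul_of_tower f z
        rw [tsmul_eq, tsmul_eq, h0]
        rfl }
  have hev : Function.Bijective ev := by
    constructor
    · rw [injective_iff_map_eq_zero]
      intro z hz
      have h1 : ∀ i, z • b i = 0 := fun i => congrFun hz i
      apply act_injective φ
      rw [map_zero]
      ext x
      change z • x = 0
      rw [← b.sum_repr x, Finset.smul_sum]
      refine Finset.sum_eq_zero fun i _ => ?_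
      have h2 : z • ((b.repr x) i • b i) = (b.repr x) i • (z • b i) :=
        (map_smul ((b.repr x) i) z (b i)).symm
      rw [h2, h1 i, smul_zero]
    · intro w
      obtain ⟨z, hz⟩ := jacobson_density (R := K ⊗[F] A) (b.constr ℕ w) (Finset.univ.image b)
      refine ⟨z, ?_⟩
      ext i
      have h3 := hz (b i) (Finset.mem_image_of_mem _ (Finset.mem_univ i))
      rw [b.constr_basis] at h3
      exact h3.symm
  have h4 := LinearEquiv.finrank_eq (LinearEquiv.ofBijective ev hev)
  rw [Module.finrank_tensorProduct, Module.finrank_pi_fintype, Finset.sum_const,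
    Finset.card_univ, Fintype.card_fin, smul_eq_mul] at h4
  have h5 : Module.finrank F (RM φ) = Module.finrank F A := rfl
  have h6 : 0 < Module.finrank F A := Module.finrank_pos
  rw [h5] at h4
  have h7 := Nat.eq_of_mul_eq_mul_right h6 h4
  have h8 : Module.finrank F (EE φ) * Module.finrank (EE φ) (RM φ) = Module.finrank F (RM φ) :=
    Module.finrank_mul_finrank F (EE φ) (RM φ)
  rw [h7, ← hEF, mul_comm, h8, h5]

end Centralizer

section Exists

variable {F A : Type u} [Field F] [DivisionRing A] [Algebra F A]

theorem exists_field [FiniteDimensional F A] (S : Subalgebra F A)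
    (hS : ∀ x ∈ S, ∀ y ∈ S, x * y = y * x) :
    ∃ (K : Type u) (_ : Field K) (_ : Algebra F K) (φ : K →ₐ[F] A), φ.range = S := by
  let c : CommRing S :=
    { (inferInstance : Ring S) with mul_comm := fun x y => Subtype.ext (hS x x.2 y y.2) }
  let f : Field S := fieldOfFiniteDimensional F S
  exact ⟨S, f, S.algebra, S.val, S.range_val⟩

/-- the centre of the centraliser of a subfield is the subfield -/
theorem center_centralizer [Algebra.IsCentral F A] [FiniteDimensional F A] {K : Type u} [Field K]
    [Algebra F K] (φ : K →ₐ[F] A) (x : A)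
    (hx : x ∈ Subalgebra.centralizer F (φ.range : Set A))
    (hx' : ∀ y ∈ Subalgebra.centralizer F (φ.range : Set A), y * x = x * y) : x ∈ φ.range := by
  set C := Subalgebra.centralizer F (φ.range : Set A) with hC
  set Z := C ⊓ Subalgebra.centralizer F (C : Set A) with hZ
  have hcomm : ∀ x ∈ Z, ∀ y ∈ Z, x * y = y * x := by
    intro x hx y hy
    exact (Subalgebra.mem_centralizer_iff F).1 hy.2 x hx.1
  obtain ⟨K', _, _, φ', hφ'⟩ := exists_field Z hcomm
  have h1 : φ.range ≤ Z := by
    rintro _ ⟨k, rfl⟩
    refine ⟨?_, ?_⟩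
    · rw [hC]
      refine (Subalgebra.mem_centralizer_iff F).2 ?_
      rintro _ ⟨k', rfl⟩
      change φ k' * φ k = φ k * φ k'
      rw [← map_mul, mul_comm, map_mul]
    · refine (Subalgebra.mem_centralizer_iff F).2 fun y hy => ?_
      exact ((Subalgebra.mem_centralizer_iff F).1 hy (φ k) ⟨k, rfl⟩).symm
  have h2 : Subalgebra.centralizer F (φ'.range : Set A) = C := by
    rw [hφ']
    apply le_antisymm
    · intro y hy
      rw [hC]
      exact (Subalgebra.mem_centralizer_iff F).2 fun g hg =>
        (Subalgebra.mem_centralizer_iff F).1 hy g (h1 hg)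
    · intro y hy
      refine (Subalgebra.mem_centralizer_iff F).2 fun g hg => ?_
      exact ((Subalgebra.mem_centralizer_iff F).1 hg.2 y hy).symm
  have e1 := dim_centralizer φ
  have e2 := dim_centralizer φ'
  rw [h2] at e2
  rw [← hC] at e1
  have hpos : 0 < Module.finrank F C := Module.finrank_pos
  have e3 : Module.finrank F K = Module.finrank F K' :=
    Nat.eq_of_mul_eq_mul_right hpos (e1.trans e2.symm)
  have e4 : Module.finrank F φ.range = Module.finrank F Z := by
    rw [← hφ', ← LinearEquiv.finrank_eq (AlgEquiv.ofInjective φ φ.injective).toLinearEquiv,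
      ← LinearEquiv.finrank_eq (AlgEquiv.ofInjective φ' φ'.injective).toLinearEquiv, e3]
  have e5 : φ.range = Z := Subalgebra.eq_of_le_of_finrank_eq h1 e4
  rw [e5]
  exact ⟨hx, (Subalgebra.mem_centralizer_iff F).2 hx'⟩

theorem adjoinRoot_separable {K : Type u} [Field K] (f : Polynomial K) [Fact (Irreducible f)]
    (hf : f.Separable) : Algebra.IsSeparable K (AdjoinRoot f) := by
  have h1 : IsSeparable K (AdjoinRoot.root f) := by
    refine Polynomial.Separable.of_dvd (g := minpoly K (AdjoinRoot.root f)) hf (minpoly.dvd K _ ?_)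
    rw [AdjoinRoot.aeval_eq, AdjoinRoot.mk_self]
  have h3 : IntermediateField.adjoin K {AdjoinRoot.root f} = ⊤ :=
    IntermediateField.adjoin_root_eq_top f
  have h2 : Algebra.IsSeparable K (IntermediateField.adjoin K {AdjoinRoot.root f}) :=
    (IntermediateField.isSeparable_adjoin_simple_iff_isSeparable K (AdjoinRoot f)).2 h1
  rw [h3] at h2
  exact AlgEquiv.Algebra.isSeparable IntermediateField.topEquiv

theorem adjoinRoot_facts {F K : Type u} [Field F] [Field K] [Algebra F K]
    [FiniteDimensional F K] [Algebra.IsSeparable F K] (f : Polynomial K) [Fact (Irreducible f)]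
    (hf : f.Separable) (h2 : 2 ≤ f.natDegree) :
    Algebra.IsSeparable F (AdjoinRoot f) ∧
      Module.finrank F K < Module.finrank F (AdjoinRoot f) := by
  have hf0 : f ≠ 0 := (Fact.out : Irreducible f).ne_zero
  have hsepK : Algebra.IsSeparable K (AdjoinRoot f) := adjoinRoot_separable f hf
  refine ⟨Algebra.IsSeparable.trans F K (AdjoinRoot f), ?_⟩
  rw [← Module.finrank_mul_finrank F K (AdjoinRoot f)]
  have h3 : Module.finrank K (AdjoinRoot f) = f.natDegree := by
    rw [(AdjoinRoot.powerBasis hf0).finrank, AdjoinRoot.powerBasis_dim]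
  have h5 : 0 < Module.finrank F K := Module.finrank_pos
  rw [h3]
  nlinarith

theorem exists_bigger [Algebra.IsCentral F A] [FiniteDimensional F A] {K : Type u} [Field K]
    [Algebra F K] [Algebra.IsSeparable F K] (φ : K →ₐ[F] A)
    (hne : Subalgebra.centralizer F (φ.range : Set A) ≠ φ.range) :
    ∃ (K' : Type u) (_ : Field K') (_ : Algebra F K') (φ' : K' →ₐ[F] A),
      Algebra.IsSeparable F K' ∧ φ.range ≤ φ'.range ∧
        Module.finrank F K < Module.finrank F K' := by
  have hmem : ∀ k, φ k ∈ Subalgebra.centralizer F (φ.range : Set A) := by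
    intro k
    refine (Subalgebra.mem_centralizer_iff F).2 ?_
    rintro _ ⟨k', rfl⟩
    change φ k' * φ k = φ k * φ k'
    rw [← map_mul, mul_comm, map_mul]
  have center := center_centralizer φ
  have hcom : ∀ (k : K) (c : A), c ∈ Subalgebra.centralizer F (φ.range : Set A) →
      φ k * c = c * φ k := fun k c hc => (Subalgebra.mem_centralizer_iff F).1 hc _ ⟨k, rfl⟩
  set C := Subalgebra.centralizer F (φ.range : Set A) with hC
  let _ : DivisionRing C := divisionRingOfFiniteDimensional F C
  let j : K →ₐ[F] C := φ.codRestrict C hmem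
  let _ : Algebra K C := RingHom.toAlgebra' j.toRingHom fun k c => Subtype.ext (hcom k c c.2)
  have hT : IsScalarTower F K C := IsScalarTower.of_algebraMap_eq fun f => (j.commutes f).symm
  have hfin : Module.Finite K C := Module.Finite.of_restrictScalars_finite F K C
  have hKfin : FiniteDimensional F K := FiniteDimensional.of_injective φ.toLinearMap φ.injective
  have hcent : Algebra.IsCentral K C := ⟨fun x hx => by
    rw [Subalgebra.mem_center_iff] at hx
    obtain ⟨k, hk⟩ := center x.1 x.2 fun y hy => congrArg Subtype.val (hx ⟨y, hy⟩)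
    exact Algebra.mem_bot.2 ⟨k, Subtype.ext hk⟩⟩
  have hbt : (⊥ : Subalgebra K C) ≠ ⊤ := by
    intro h
    apply hne
    apply le_antisymm
    · intro x hx
      have h1 : (⟨x, hx⟩ : C) ∈ (⊥ : Subalgebra K C) := by rw [h]; exact Algebra.mem_top
      obtain ⟨k, hk⟩ := Algebra.mem_bot.1 h1
      exact ⟨k, congrArg Subtype.val hk⟩
    · rintro _ ⟨k, rfl⟩
      exact hmem k
  obtain ⟨x, hx, hsep⟩ := JacobsonNoether.exists_separable_and_not_isCentral' hbt
  have hint : IsIntegral K x := Algebra.IsIntegral.isIntegral x
  have hirr : Fact (Irreducible (minpoly K x)) := ⟨minpoly.irreducible hint⟩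
  let a : AdjoinRoot (minpoly K x) →ₐ[K] C :=
    Ideal.Quotient.liftₐ (Ideal.span {minpoly K x}) (Polynomial.aeval x) (by
      intro p hp
      obtain ⟨q, rfl⟩ := Ideal.mem_span_singleton'.1 hp
      rw [map_mul, minpoly.aeval, mul_zero])
  have hfacts := adjoinRoot_facts (F := F) (minpoly K x) hsep
    ((minpoly.two_le_natDegree_iff hint).2 fun h => hx (Algebra.mem_bot.2 h))
  refine ⟨AdjoinRoot (minpoly K x), inferInstance, inferInstance,
    C.val.comp (a.restrictScalars F), hfacts.1, ?_, hfacts.2⟩
  rintro _ ⟨k, rfl⟩
  refine ⟨algebraMap K _ k, ?_⟩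
  change (a (algebraMap K _ k)).1 = φ k
  rw [a.commutes]
  rfl

theorem exists_maximal [Algebra.IsCentral F A] [FiniteDimensional F A] :
    ∀ (m : ℕ) {L : Type u} [Field L] [Algebra F L] [Algebra.IsSeparable F L] (ψ : L →ₐ[F] A),
      Module.finrank F A - Module.finrank F L ≤ m →
      ∃ (K : Type u) (_ : Field K) (_ : Algebra F K) (φ : K →ₐ[F] A),
        Algebra.IsSeparable F K ∧ ψ.range ≤ φ.range ∧
          Subalgebra.centralizer F (φ.range : Set A) = φ.range := by
  intro m
  induction m with
  | zero =>
    intro L _ _ _ ψ hm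
    by_cases h : Subalgebra.centralizer F (ψ.range : Set A) = ψ.range
    · exact ⟨L, inferInstance, inferInstance, ψ, inferInstance, le_rfl, h⟩
    · obtain ⟨K, _, _, φ, _, h2, h3⟩ := exists_bigger ψ h
      have h4 : Module.finrank F K ≤ Module.finrank F A :=
        LinearMap.finrank_le_finrank_of_injective (f := φ.toLinearMap) φ.injective
      omega
  | succ m ih =>
    intro L _ _ _ ψ hm
    by_cases h : Subalgebra.centralizer F (ψ.range : Set A) = ψ.range
    · exact ⟨L, inferInstance, inferInstance, ψ, inferInstance, le_rfl, h⟩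
    · obtain ⟨K, _, _, φ, _, h2, h3⟩ := exists_bigger ψ h
      obtain ⟨K', i1, i2, φ', h5, h6, h7⟩ := ih φ (by omega)
      exact ⟨K', i1, i2, φ', h5, h2.trans h6, h7⟩

/-- Every separable subfield is contained in a separable subfield of degree `n`. -/
theorem exists_degree [Algebra.IsCentral F A] (n : ℕ) (hn : 0 < n)
    (hA : Module.finrank F A = n ^ 2) {L : Type u} [Field L] [Algebra F L]
    [Algebra.IsSeparable F L] (ψ : L →ₐ[F] A) :
    ∃ (K : Type u) (_ : Field K) (_ : Algebra F K) (φ : K →ₐ[F] A),
      Algebra.IsSeparable F K ∧ ψ.range ≤ φ.range ∧ Module.finrank F K = n := by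
  have hfin : FiniteDimensional F A := FiniteDimensional.of_finrank_pos (by rw [hA]; positivity)
  obtain ⟨K, i1, i2, φ, h1, h2, h3⟩ := exists_maximal _ ψ le_rfl
  refine ⟨K, i1, i2, φ, h1, h2, ?_⟩
  have e := dim_centralizer φ
  rw [h3, ← LinearEquiv.finrank_eq (AlgEquiv.ofInjective φ φ.injective).toLinearEquiv, hA] at e
  nlinarith [sq_nonneg ((Module.finrank F K : ℤ) - n), Nat.pow_left_injective (n := 2) (by norm_num)
    (show (Module.finrank F K) ^ 2 = n ^ 2 by rw [sq]; exact e)]

end Exists

section Group

variable (F K : Type u) [Field F] [Field K] [Algebra F K]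

/-- The normal closure of `K/F`. -/
noncomputable abbrev NC : IntermediateField F (AlgebraicClosure K) :=
  IntermediateField.normalClosure F K (AlgebraicClosure K)

variable [FiniteDimensional F K] [Algebra.IsSeparable F K]

instance : IsGalois F (NC F K) := by
  have h1 : Algebra.IsAlgebraic F (AlgebraicClosure K) := Algebra.IsAlgebraic.trans F K _
  have h2 : IsAlgClosure F (AlgebraicClosure K) := ⟨inferInstance, h1⟩
  have h3 : Normal F (AlgebraicClosure K) := IsAlgClosure.normal F (AlgebraicClosure K)
  have h4 : ∀ f : K →ₐ[F] AlgebraicClosure K, Algebra.IsSeparable F f.fieldRange := fun f =>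
    AlgEquiv.Algebra.isSeparable (AlgEquiv.ofInjectiveField f)
  have h5 : Algebra.IsSeparable F (NC F K) := by
    rw [NC, normalClosure_def]
    infer_instance
  have h6 : Normal F (NC F K) := inferInstance
  exact ⟨⟩

/-- The Galois group acts on the embeddings of `K`. -/
noncomputable def actX : (NC F K ≃ₐ[F] NC F K) →* Equiv.Perm (K →ₐ[F] NC F K) where
  toFun g :=
    { toFun := fun x => g.toAlgHom.comp x
      invFun := fun x => g.symm.toAlgHom.comp x
      left_inv := fun x => by ext k; simp
      right_inv := fun x => by ext k; simp }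
  map_one' := by ext x k; rfl
  map_mul' a b := by ext x k; rfl

theorem actX_apply (g : NC F K ≃ₐ[F] NC F K) (x : K →ₐ[F] NC F K) (k : K) :
    actX F K g x k = g (x k) := rfl

theorem actX_injective : Function.Injective (actX F K) := by
  rw [injective_iff_map_eq_one]
  intro g hg
  have h1 : ∀ (x : K →ₐ[F] NC F K) (k : K), g (x k) = x k := by
    intro x k
    have := congrArg (fun σ : Equiv.Perm (K →ₐ[F] NC F K) => σ x k) hg
    exact this
  set M : IntermediateField F (NC F K) := IntermediateField.fixedField (Subgroup.zpowers g)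
    with hM
  have h2 : ∀ y : NC F K, g y = y → y ∈ M := by
    intro y hy
    rw [hM, IntermediateField.mem_fixedField_iff]
    have h3 : Subgroup.zpowers g ≤ MulAction.stabilizer (NC F K ≃ₐ[F] NC F K) y := by
      rw [Subgroup.zpowers_le]
      exact hy
    intro f hf
    exact h3 hf
  have h4 : NC F K ≤ IntermediateField.lift M := by
    refine normalClosure_le_iff.2 fun f => ?_
    rintro _ ⟨k, rfl⟩
    have h5 : f k = ((normalClosure.algHomEquiv F K (AlgebraicClosure K)).symm f k).1 := rfl
    change f k ∈ IntermediateField.lift M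
    rw [h5, IntermediateField.mem_lift]
    exact h2 _ (h1 _ _)
  ext1 y
  have h6 : y ∈ M := (IntermediateField.mem_lift y).1 (h4 y.2)
  rw [hM, IntermediateField.mem_fixedField_iff] at h6
  exact h6 g (Subgroup.mem_zpowers g)

theorem card_emb : Nat.card (K →ₐ[F] NC F K) = Module.finrank F K := by
  rw [Nat.card_congr (normalClosure.algHomEquiv F K (AlgebraicClosure K))]
  exact AlgHom.natCard_of_splits F K (AlgebraicClosure K) fun _ => IsAlgClosed.splits _

/-- The Galois group of the normal closure as a group of permutations of `Fin n`. -/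
noncomputable def toPerm (n : ℕ) (hn : 0 < n) (hK : Module.finrank F K = n) :
    (NC F K ≃ₐ[F] NC F K) →* Equiv.Perm (Fin n) :=
  have : Finite (K →ₐ[F] NC F K) := Nat.finite_of_card_ne_zero (by
    rw [card_emb, hK]; exact hn.ne')
  ((Finite.equivFinOfCardEq ((card_emb F K).trans hK)).permCongrHom.toMonoidHom).comp (actX F K)

theorem toPerm_injective (n : ℕ) (hn : 0 < n) (hK : Module.finrank F K = n) :
    Function.Injective (toPerm F K n hn hK) := by
  have : Finite (K →ₐ[F] NC F K) := Nat.finite_of_card_ne_zero (by
    rw [card_emb, hK]; exact hn.ne')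
  intro a b hab
  exact actX_injective F K (((Finite.equivFinOfCardEq
    ((card_emb F K).trans hK)).permCongrHom).injective hab)

theorem actX_surjective_of (n : ℕ) (hn : 0 < n) (hK : Module.finrank F K = n)
    (h : (toPerm F K n hn hK).range = ⊤) : Function.Surjective (actX F K) := by
  have : Finite (K →ₐ[F] NC F K) := Nat.finite_of_card_ne_zero (by
    rw [card_emb, hK]; exact hn.ne')
  rw [MonoidHom.range_eq_top] at h
  intro σ
  obtain ⟨g, hg⟩ := h ((Finite.equivFinOfCardEq ((card_emb F K).trans hK)).permCongrHom σ)
  exact ⟨g, ((Finite.equivFinOfCardEq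
    ((card_emb F K).trans hK)).permCongrHom).injective hg⟩

theorem range_ne_top (n : ℕ) (hn : 0 < n) (hK : Module.finrank F K = n)
    (L : IntermediateField F K) (h1 : L ≠ ⊥) (h2 : L ≠ ⊤) : (toPerm F K n hn hK).range ≠ ⊤ := by
  classical
  intro htop
  have hsurj := actX_surjective_of F K n hn hK htop
  set x0 : K →ₐ[F] NC F K := IsScalarTower.toAlgHom F K (NC F K) with hx0
  have hinj : Function.Injective x0 := x0.injective
  obtain ⟨l, hl, hlF⟩ : ∃ l ∈ L, l ∉ (⊥ : IntermediateField F K) := by
    by_contra hc
    push Not at hc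
    exact h1 (le_bot_iff.1 hc)
  obtain ⟨k, hk⟩ : ∃ k : K, k ∉ L := by
    by_contra hc
    push Not at hc
    exact h2 (top_le_iff.1 fun k _ => hc k)
  obtain ⟨g, hg⟩ : ∃ g : NC F K ≃ₐ[F] NC F K, g (x0 l) ≠ x0 l := by
    by_contra hc
    push Not at hc
    obtain ⟨f, hf⟩ := (IsGalois.mem_range_algebraMap_iff_fixed (F := F) (x0 l)).2 hc
    apply hlF
    rw [IntermediateField.mem_bot]
    refine ⟨f, hinj ?_⟩
    rw [AlgHom.commutes]
    exact hf
  obtain ⟨g', hg', hgk⟩ : ∃ g' : NC F K ≃ₐ[F] NC F K,
      (∀ l ∈ L, g' (x0 l) = x0 l) ∧ g' (x0 k) ≠ x0 k := by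
    by_contra hc
    push Not at hc
    have h3 : x0 k ∈ IntermediateField.fixedField
        (IntermediateField.fixingSubgroup (L.map x0)) := by
      rw [IntermediateField.mem_fixedField_iff]
      intro f hf
      rw [IntermediateField.mem_fixingSubgroup_iff] at hf
      exact hc f fun l hl => hf _ ⟨l, hl, rfl⟩
    rw [IsGalois.fixedField_fixingSubgroup] at h3
    obtain ⟨l', hl', he⟩ := h3
    exact hk (hinj he ▸ hl')
  set y : K →ₐ[F] NC F K := g'.toAlgHom.comp x0 with hy
  set z : K →ₐ[F] NC F K := g.toAlgHom.comp x0 with hz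
  have hyx : x0 ≠ y := fun h => hgk (DFunLike.congr_fun h k).symm
  have hzx : x0 ≠ z := fun h => hg (DFunLike.congr_fun h l).symm
  obtain ⟨τ, hτ⟩ := hsurj (Equiv.swap y z)
  have e1 : τ (x0 l) = x0 l := by
    rw [← actX_apply, hτ, Equiv.swap_apply_of_ne_of_ne hyx hzx]
  have e2 : τ (y l) = z l := by
    rw [← actX_apply, hτ, Equiv.swap_apply_left]
  have e3 : y l = x0 l := hg' l hl
  rw [e3, e1] at e2
  exact hg e2.symm

end Group

theorem proper_or_top {F A K : Type u} [Field F] [DivisionRing A] [Algebra F A]
    [Algebra.IsCentral F A] [Field K] [Algebra F K] [Algebra.IsSeparable F K]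
    [FiniteDimensional F K] (n : ℕ) (hn : 0 < n)
    (hA : Module.finrank F A = n ^ 2) (hK : Module.finrank F K = n) (φ : K →ₐ[F] A)
    (hW : ∀ H : Subgroup (Equiv.Perm (Fin n)), H ≠ ⊤ → ¬ GroupSplits F A n H) :
    (toPerm F K n hn hK).range = ⊤ := by
  by_contra hne
  exact hW _ hne ⟨NC F K, inferInstance, inferInstance, inferInstance, inferInstance,
    ⟨(MonoidHom.ofInjective (toPerm_injective F K n hn hK)).symm⟩,
    split_up n (split_self φ n hn hA hK)⟩

/-- **Division algebras split by a proper subgroup of `S_n`.** Let `A` be a central division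
`F`-algebra of degree `n` and `L ≠ F` a separable subfield of `A`. If `L` does not have degree `n`
over `F`, or if the Galois group of its normal closure over `F` is not isomorphic to `S_n`, then
some proper subgroup of `S_n` splits `A`. -/
theorem result {F A : Type u} [Field F] [DivisionRing A] [Algebra F A] [Algebra.IsCentral F A]
    (n : ℕ) (hn : 0 < n) (hA : Module.finrank F A = n ^ 2)
    (L : Type u) [Field L] [Algebra F L] [Algebra.IsSeparable F L] (ψ : L →ₐ[F] A)
    (hL : Module.finrank F L ≠ 1)
    (h : Module.finrank F L ≠ n ∨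
      IsEmpty ((IntermediateField.normalClosure F L (AlgebraicClosure L) ≃ₐ[F]
        IntermediateField.normalClosure F L (AlgebraicClosure L)) ≃* Equiv.Perm (Fin n))) :
    ∃ H : Subgroup (Equiv.Perm (Fin n)), H ≠ ⊤ ∧ GroupSplits F A n H := by
  by_contra hcon
  push Not at hcon
  have hW : ∀ H : Subgroup (Equiv.Perm (Fin n)), H ≠ ⊤ → ¬ GroupSplits F A n H := hcon
  have hfin : FiniteDimensional F A := FiniteDimensional.of_finrank_pos (by rw [hA]; positivity)
  have hLfin : FiniteDimensional F L := FiniteDimensional.of_injective ψ.toLinearMap ψ.injective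
  have hLn : Module.finrank F L = n := by
    obtain ⟨K, _, _, φ, _, h2, h3⟩ := exists_degree n hn hA ψ
    have hKfin : FiniteDimensional F K := FiniteDimensional.of_finrank_pos (by rw [h3]; exact hn)
    let j : L →ₐ[F] K := (AlgEquiv.ofInjective φ φ.injective).symm.toAlgHom.comp
      ((Subalgebra.inclusion h2).comp ψ.rangeRestrict)
    have htop := proper_or_top n hn hA h3 φ hW
    have e1 : Module.finrank F j.fieldRange = Module.finrank F L :=
      (LinearEquiv.finrank_eq (AlgEquiv.ofInjectiveField j).toLinearEquiv).symm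
    by_cases hb : j.fieldRange = ⊥
    · rw [hb, IntermediateField.finrank_bot] at e1
      exact absurd e1.symm hL
    · by_cases ht : j.fieldRange = ⊤
      · rw [ht, IntermediateField.finrank_top'] at e1
        exact e1.symm.trans h3
      · exact absurd htop (range_ne_top F K n hn h3 j.fieldRange hb ht)
  rcases h with h | h
  · exact h hLn
  · have htop := proper_or_top n hn hA hLn ψ hW
    exact h.false ((MonoidHom.ofInjective (toPerm_injective F L n hn hLn)).trans
      ((MulEquiv.subgroupCongr htop).trans Subgroup.topEquiv))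

end Pool.Agent.Results.MP_2227f4_al.PrimitiveSubfields
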